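import Pool.Agent.Helper69.QG.St1

/-!
# Project QD part C, module TIT : the lemma of Tits
-/

set_option autoImplicit false

namespace Pool.Agent.Helper89.QG

open Pool.Agent.Helper69.QG

section

variable {B G : Type} [Group G] {M : CoxeterMatrix B} (c : CoxeterSystem M G)

/-- Products of `k` letters from `s, t`. -/
private def Pr (s t : B) : ℕ → G → Prop
  | 0, v => v = 1
  | k + 1, v => ∃ v', Pr s t k v' ∧ (v = c.simple s * v' ∨ v = c.simple t * v')

private theorem Pr_swap (s t : B) : ∀ (k : ℕ) (v : G), Pr c s t k v → Pr c t s k v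
  | 0, _, h => h
  | k + 1, _, ⟨v', h1, h2⟩ => ⟨v', Pr_swap s t k v' h1, h2.symm⟩

private theorem Pr_len (s t : B) : ∀ (k : ℕ) (v : G), Pr c s t k v → c.length v ≤ k
  | 0, v, h => by
    have h' : v = 1 := h
    rw [h', c.length_one]
  | k + 1, v, ⟨v', h1, h2⟩ => by
    have h3 := Pr_len s t k v' h1
    rcases h2 with rfl | rfl
    · have h4 := c.length_mul_le (c.simple s) v'
      rw [c.length_simple] at h4
      omega
    · have h4 := c.length_mul_le (c.simple t) v'
      rw [c.length_simple] at h4
      omega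

private theorem altp_zero (s t : B) : altp c s t 0 = 1 := rfl

private theorem altp_succ (s t : B) (m : ℕ) :
    altp c s t (m + 1) = c.simple t * altp c t s m := rfl

private theorem Pr_altp : ∀ (m : ℕ) (s t : B), Pr c s t m (altp c s t m)
  | 0, _, _ => rfl
  | m + 1, s, t => ⟨altp c t s m, Pr_swap c t s m _ (Pr_altp m t s), Or.inr rfl⟩

private theorem altp_inv : ∀ (m : ℕ) (s t : B),
    altp c s t m = (c.wordProd (CoxeterSystem.alternatingWord s t m))⁻¹
  | 0, s, t => by simp [altp_zero, CoxeterSystem.alternatingWord]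
  | m + 1, s, t => by
    rw [altp_succ, altp_inv m t s, CoxeterSystem.alternatingWord_succ, c.wordProd_concat,
      mul_inv_rev, c.inv_simple]

private theorem braid (s t : B) : altp c s t (M s t) = altp c t s (M s t) := by
  have h := c.wordProd_braidWord_eq s t
  have h2 : M t s = M s t := M.symmetric t s
  rw [altp_inv, altp_inv]
  congr 1
  have h3 : c.wordProd (CoxeterSystem.alternatingWord s t (M s t)) =
      c.wordProd (CoxeterSystem.alternatingWord t s (M t s)) := h
  rw [h3, h2]

/-- dihedral reduction -/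
private theorem dih {s t : B} (hst : s ≠ t) : ∀ (k : ℕ) (v : G), Pr c s t k v →
    ∃ m, m ≤ k ∧ (M s t = 0 ∨ m ≤ M s t) ∧ (v = altp c s t m ∨ v = altp c t s m)
  | 0, v, h => ⟨0, le_refl _, Or.inr (Nat.zero_le _), Or.inl h⟩
  | k + 1, v, ⟨v', h1, h2⟩ => by
    obtain ⟨m, hm, hM, hv⟩ := dih hst k v' h1
    have hM1 : M s t ≠ 1 := M.off_diagonal s t hst
    have hsymm : M t s = M s t := M.symmetric t s
    -- general step: `a, b` is `s, t` or `t, s`
    have key : ∀ a b : B, M a b = M s t → altp c a b (M s t) = altp c b a (M s t) →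
        v' = altp c a b m → (v = c.simple a * v' ∨ v = c.simple b * v') →
        ∃ m, m ≤ k + 1 ∧ (M s t = 0 ∨ m ≤ M s t) ∧ (v = altp c a b m ∨ v = altp c b a m) := by
      intro a b hab hbr hv' hor
      rcases hor with h3 | h3
      · -- new letter `a`
        by_cases h4 : M s t = 0 ∨ m + 1 ≤ M s t
        · refine ⟨m + 1, by omega, h4, Or.inr ?_⟩
          rw [h3, hv', altp_succ]
        · push Not at h4
          have h5 : m = M s t := by
            rcases hM with h6 | h6
            · exact absurd h6 h4.1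
            · omega
          obtain ⟨m', hm'⟩ : ∃ m', M s t = m' + 1 := ⟨M s t - 1, by omega⟩
          refine ⟨m', by omega, Or.inr (by omega), Or.inl ?_⟩
          rw [h3, hv', h5, hbr, hm', altp_succ, c.simple_mul_simple_cancel_left]
      · -- new letter `b`
        cases m with
        | zero =>
          refine ⟨1, by omega, ?_, Or.inl ?_⟩
          · omega
          · rw [h3, hv', altp_succ]
            rfl
        | succ m' =>
          refine ⟨m', by omega, by omega, Or.inr ?_⟩
          rw [h3, hv', altp_succ, c.simple_mul_simple_cancel_left]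
    rcases hv with hv | hv
    · exact key s t rfl (braid c s t) hv h2
    · obtain ⟨m1, e1, e2, e3⟩ := key t s hsymm (braid c s t).symm hv h2.symm
      exact ⟨m1, e1, e2, e3.symm⟩

variable {Ω : Type} (ρ : G →* Equiv.Perm Ω) (A : B → Set Ω)

/-- geometric consequence -/
private theorem geo (H : ∀ s t, s ≠ t → ∀ m : ℕ, (M s t = 0 ∨ m < M s t) → ∀ x, x ∈ A s →
      x ∈ A t → ρ (altp c s t m) x ∈ A s) {s t : B} (hst : s ≠ t) (k : ℕ) (v : G)
    (hv : Pr c s t k v) :
    (∀ x, x ∈ A s → x ∈ A t → ρ v x ∈ A s) ∨
      ∃ j, j + 1 ≤ k ∧ Pr c s t j (c.simple s * v) ∧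
        ∀ x, x ∈ A s → x ∈ A t → ρ (c.simple s * v) x ∈ A s := by
  obtain ⟨m, hm, hM, h1⟩ := dih c hst k v hv
  have two : v = altp c t s m → (∀ x, x ∈ A s → x ∈ A t → ρ v x ∈ A s) ∨
      ∃ j, j + 1 ≤ k ∧ Pr c s t j (c.simple s * v) ∧
        ∀ x, x ∈ A s → x ∈ A t → ρ (c.simple s * v) x ∈ A s := by
    intro h2
    cases m with
    | zero =>
      left
      intro x hx _
      rw [h2, altp_zero, map_one]
      exact hx
    | succ m' =>
      right
      have h3 : c.simple s * v = altp c s t m' := by
        rw [h2, altp_succ, c.simple_mul_simple_cancel_left]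
      refine ⟨m', hm, ?_, ?_⟩
      · rw [h3]
        exact Pr_altp c m' s t
      · rw [h3]
        refine H s t hst m' ?_
        rcases hM with h4 | h4
        · exact Or.inl h4
        · exact Or.inr h4
  rcases h1 with h1 | h1
  · by_cases h2 : M s t = 0 ∨ m < M s t
    · left
      rw [h1]
      exact H s t hst m h2
    · push Not at h2
      have h3 : m = M s t := by
        rcases hM with h6 | h6
        · exact absurd h6 h2.1
        · omega
      refine two ?_
      rw [h1, h3, braid]
  · exact two h1

end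

private theorem mainInd {B G Ω : Type} [Group G] {M : CoxeterMatrix B} (c : CoxeterSystem M G)
    (ρ : G →* Equiv.Perm Ω) (A : B → Set Ω)
    (H : ∀ s t, s ≠ t → ∀ m : ℕ, (M s t = 0 ∨ m < M s t) → ∀ x, x ∈ A s →
      x ∈ A t → ρ (altp c s t m) x ∈ A s) (n : ℕ) :
    ∀ w : G, c.length w ≤ n →
      (∀ s, (∀ x, (∀ t, x ∈ A t) → ρ w x ∈ A s) ∨
        (c.length (c.simple s * w) < c.length w ∧
          ∀ x, (∀ t, x ∈ A t) → ρ (c.simple s * w) x ∈ A s)) ∧
      (∀ s t, s ≠ t → ∃ (u : G) (k : ℕ), Pr c s t k u ∧
        (∀ x, (∀ t, x ∈ A t) → ρ (u⁻¹ * w) x ∈ A s ∧ ρ (u⁻¹ * w) x ∈ A t) ∧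
        c.length w = k + c.length (u⁻¹ * w)) := by
  induction n with
  | zero =>
    intro w hw
    have h1 : w = 1 := c.length_eq_zero_iff.1 (by omega)
    subst h1
    refine ⟨fun s => Or.inl fun x hx => by rw [map_one]; exact hx s, fun s t _ =>
      ⟨1, 0, rfl, fun x hx => ?_, ?_⟩⟩
    · rw [inv_one, one_mul, map_one]
      exact ⟨hx s, hx t⟩
    · rw [inv_one, one_mul, zero_add]
  | succ n ih =>
    intro w hw
    by_cases hwn : c.length w ≤ n
    · exact ih w hwn
    have hwl : c.length w = n + 1 := by omega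
    have hw1 : w ≠ 1 := by
      rintro rfl
      rw [c.length_one] at hwl
      omega
    obtain ⟨t, ht⟩ := c.exists_leftDescent_of_ne_one hw1
    have ht' : c.length (c.simple t * w) < c.length w := ht
    have htl : c.length (c.simple t * w) = n := by
      rcases c.length_simple_mul w t with h | h <;> omega
    have hww : w = c.simple t * (c.simple t * w) := by rw [c.simple_mul_simple_cancel_left]
    have hP : ∀ s, (∀ x, (∀ t, x ∈ A t) → ρ w x ∈ A s) ∨
        (c.length (c.simple s * w) < c.length w ∧
          ∀ x, (∀ t, x ∈ A t) → ρ (c.simple s * w) x ∈ A s) := by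
      intro s
      by_cases hts : t = s
      · subst hts
        rcases (ih (c.simple t * w) htl.le).1 t with h1 | h1
        · exact Or.inr ⟨ht', h1⟩
        · exfalso
          have h2 := h1.1
          rw [← hww] at h2
          omega
      · obtain ⟨u, k, hu, hux, hul⟩ := (ih (c.simple t * w) htl.le).2 s t (Ne.symm hts)
        have hv : Pr c s t (k + 1) (c.simple t * u) := ⟨u, hu, Or.inr rfl⟩
        have hmul : w = (c.simple t * u) * (u⁻¹ * (c.simple t * w)) := by
          rw [mul_assoc, mul_inv_cancel_left, c.simple_mul_simple_cancel_left]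
        rcases geo c ρ A H (Ne.symm hts) (k + 1) _ hv with h1 | ⟨j, hj, hjP, h1⟩
        · left
          intro x hx
          rw [hmul, map_mul, Equiv.Perm.mul_apply]
          exact h1 _ (hux x hx).1 (hux x hx).2
        · right
          have hmul2 : c.simple s * w = (c.simple s * (c.simple t * u)) *
              (u⁻¹ * (c.simple t * w)) := by
            rw [mul_assoc, ← hmul]
          refine ⟨?_, ?_⟩
          · have h2 := c.length_mul_le (c.simple s * (c.simple t * u))
              (u⁻¹ * (c.simple t * w))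
            have h3 := Pr_len c s t j _ hjP
            rw [← hmul2] at h2
            omega
          · intro x hx
            rw [hmul2, map_mul, Equiv.Perm.mul_apply]
            exact h1 _ (hux x hx).1 (hux x hx).2
    refine ⟨hP, ?_⟩
    have step : ∀ s, ¬ (∀ x, (∀ t, x ∈ A t) → ρ w x ∈ A s) →
        c.length w = c.length (c.simple s * w) + 1 := by
      intro s hs
      have h1 := ((hP s).resolve_left hs).1
      rcases c.length_simple_mul w s with h | h <;> omega
    intro s t' hst
    by_cases h1 : ∀ x, (∀ t, x ∈ A t) → ρ w x ∈ A s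
    · by_cases h2 : ∀ x, (∀ t, x ∈ A t) → ρ w x ∈ A t'
      · refine ⟨1, 0, rfl, fun x hx => ?_, ?_⟩
        · rw [inv_one, one_mul]
          exact ⟨h1 x hx, h2 x hx⟩
        · rw [inv_one, one_mul, zero_add]
      · have h3 := step t' h2
        obtain ⟨v, k, hv, hvx, hvl⟩ := (ih (c.simple t' * w) (by omega)).2 s t' hst
        have h4 : (c.simple t' * v)⁻¹ * w = v⁻¹ * (c.simple t' * w) := by
          rw [mul_inv_rev, c.inv_simple, mul_assoc]
        refine ⟨c.simple t' * v, k + 1, ⟨v, hv, Or.inr rfl⟩, fun x hx => ?_, ?_⟩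
        · rw [h4]
          exact hvx x hx
        · rw [h4]
          omega
    · have h3 := step s h1
      obtain ⟨v, k, hv, hvx, hvl⟩ := (ih (c.simple s * w) (by omega)).2 s t' hst
      have h4 : (c.simple s * v)⁻¹ * w = v⁻¹ * (c.simple s * w) := by
        rw [mul_inv_rev, c.inv_simple, mul_assoc]
      refine ⟨c.simple s * v, k + 1, ⟨v, hv, Or.inl rfl⟩, fun x hx => ?_, ?_⟩
      · rw [h4]
        exact hvx x hx
      · rw [h4]
        omega

theorem cTIT : St_TIT := by
  intro B G Ω _ M c ρ A H w s hlt x hx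
  rcases (mainInd c ρ A H (c.length w) w le_rfl).1 s with h1 | h1
  · exact h1 x hx
  · exact absurd h1.1 (by omega)

end Pool.Agent.Helper89.QG
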